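import Pool.Agent.D0H36.LW.Stm

/-!
# The bow tie graph and the chromatic polynomials of the book graphs

Author: helper5.
-/

set_option autoImplicit false

namespace Pool.Agent.D0H5.LW

open Polynomial Pool.Agent.H207R2.BL Pool.Agent.D0H36.BL Pool.Agent.D0H36.LW
open Pool.Agent.R814.BL (Cl)

/-- the bow tie: two triangles `0 1 2` and `2 3 4` -/
def bow : SimpleGraph (Fin 5) where
  Adj i j := i ≠ j ∧ (i = 2 ∨ j = 2 ∨ (i.1 < 2 ∧ j.1 < 2) ∨ (2 < i.1 ∧ 2 < j.1))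
  symm := ⟨fun _ _ h => ⟨h.1.symm, by
    rcases h.2 with h | h | h | h
    · exact Or.inr (Or.inl h)
    · exact Or.inl h
    · exact Or.inr (Or.inr (Or.inl ⟨h.2, h.1⟩))
    · exact Or.inr (Or.inr (Or.inr ⟨h.2, h.1⟩))⟩⟩
  loopless := ⟨fun _ h => h.1 rfl⟩

theorem bow_adj (i j : Fin 5) : bow.Adj i j ↔
    i ≠ j ∧ (i = 2 ∨ j = 2 ∨ (i.1 < 2 ∧ j.1 < 2) ∨ (2 < i.1 ∧ 2 < j.1)) := Iff.rfl

/-- the other vertex of the triangle -/
def prt : Fin 5 → Fin 5 := ![1, 0, 2, 4, 3]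

theorem prt_spec : ∀ y : Fin 5, y ≠ 2 → prt y ≠ 2 ∧ prt y ≠ y ∧
    (2 ≠ y ∧ ((2 : Fin 5) = 2 ∨ y = 2 ∨ ((2 : Fin 5).1 < 2 ∧ y.1 < 2) ∨ (2 < (2 : Fin 5).1 ∧ 2 < y.1))) ∧
    (2 ≠ prt y ∧ ((2 : Fin 5) = 2 ∨ prt y = 2 ∨ ((2 : Fin 5).1 < 2 ∧ (prt y).1 < 2) ∨
      (2 < (2 : Fin 5).1 ∧ 2 < (prt y).1))) ∧
    (prt y ≠ y ∧ (prt y = 2 ∨ y = 2 ∨ ((prt y).1 < 2 ∧ y.1 < 2) ∨ (2 < (prt y).1 ∧ 2 < y.1))) := by
  decide

theorem bow_two : TwoEdge bow := by
  intro X hX hXc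
  by_cases h2 : (2 : Fin 5) ∈ X
  · obtain ⟨y, hy⟩ := hXc
    have hy' : y ∉ X := hy
    have hy2 : y ≠ 2 := fun h => hy' (h ▸ h2)
    obtain ⟨a1, a2, a3, a4, a5⟩ := prt_spec y hy2
    have b3 : bow.Adj 2 y := a3
    have b4 : bow.Adj 2 (prt y) := a4
    have b5 : bow.Adj (prt y) y := a5
    by_cases hp : prt y ∈ X
    · exact ⟨2, y, prt y, y, h2, hy', hp, hy', b3, b5, fun h => a1 (Prod.ext_iff.1 h).1.symm⟩
    · exact ⟨2, y, 2, prt y, h2, hy', h2, hp, b3, b4, fun h => a2 (Prod.ext_iff.1 h).2.symm⟩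
  · obtain ⟨y, hy'⟩ := hX
    have hy2 : y ≠ 2 := fun h => h2 (h ▸ hy')
    obtain ⟨a1, a2, a3, a4, a5⟩ := prt_spec y hy2
    have b3 : bow.Adj 2 y := a3
    have b4 : bow.Adj 2 (prt y) := a4
    have b5 : bow.Adj (prt y) y := a5
    by_cases hp : prt y ∈ X
    · exact ⟨y, 2, prt y, 2, hy', h2, hp, h2, b3.symm, b4.symm,
        fun h => a2 (Prod.ext_iff.1 h).1.symm⟩
    · exact ⟨y, 2, y, prt y, hy', h2, hy', hp, b3.symm, b5.symm,
        fun h => a1 (Prod.ext_iff.1 h).2.symm⟩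

/-- two triangles joined by an edge -/
def dumb : SimpleGraph (Fin 6) where
  Adj i j := i ≠ j ∧ ((i.1 < 3 ∧ j.1 < 3) ∨ (3 ≤ i.1 ∧ 3 ≤ j.1) ∨ (i = 2 ∧ j = 3) ∨ (i = 3 ∧ j = 2))
  symm := ⟨fun _ _ h => ⟨h.1.symm, by
    rcases h.2 with h | h | h | h
    · exact Or.inl ⟨h.2, h.1⟩
    · exact Or.inr (Or.inl ⟨h.2, h.1⟩)
    · exact Or.inr (Or.inr (Or.inr ⟨h.2, h.1⟩))
    · exact Or.inr (Or.inr (Or.inl ⟨h.2, h.1⟩))⟩⟩
  loopless := ⟨fun _ h => h.1 rfl⟩

theorem dumb_adj (i j : Fin 6) : dumb.Adj i j ↔ i ≠ j ∧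
    ((i.1 < 3 ∧ j.1 < 3) ∨ (3 ≤ i.1 ∧ 3 ≤ j.1) ∨ (i = 2 ∧ j = 3) ∨ (i = 3 ∧ j = 2)) := Iff.rfl

theorem cl_top3 {W : Type} (f : Fin 3 ↪ W) (G : SimpleGraph W)
    (h : ∀ x y, G.Adj x y → x ∈ Set.range f ∧ y ∈ Set.range f) : Cl W G := by
  refine hCL.mono W ((⊤ : SimpleGraph (Fin 3)).map f) G ?_
    (hCL.ext (Fin 3) W f ⊤ (cl_small (by simp) ⊤))
  intro x y hxy
  obtain ⟨⟨a, rfl⟩, b, rfl⟩ := h x y hxy
  rw [SimpleGraph.map_adj]
  exact ⟨a, b, by
    rw [SimpleGraph.top_adj]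
    rintro rfl
    exact hxy.ne rfl, rfl, rfl⟩

theorem cl_dumb : Cl (Fin 6) dumb := by
  refine hCL.join (Fin 6) dumb {i | i.1 < 3} 2 3 (by decide) (by decide) ?_ ?_ ?_
  · intro a b ha hb hab
    have ha' : a.1 < 3 := ha
    have hb' : ¬ b.1 < 3 := hb
    obtain ⟨-, h | h | h | h⟩ := (dumb_adj a b).1 hab
    · exact absurd h.2 hb'
    · omega
    · exact h
    · rw [h.1] at ha'
      exact absurd ha' (by decide)
  · refine cl_top3 ⟨fun i => (⟨i.1, by omega⟩ : Fin 6), fun i j hij => Fin.ext (by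
      have h := congrArg (fun z : Fin 6 => z.1) hij
      exact h)⟩ _ ?_
    rintro x y ⟨hx, hy, -⟩
    exact ⟨⟨⟨x.1, hx⟩, rfl⟩, ⟨⟨y.1, hy⟩, rfl⟩⟩
  · refine cl_top3 ⟨fun i => (⟨i.1 + 3, by omega⟩ : Fin 6), fun i j hij => Fin.ext (by
      have h : i.1 + 3 = j.1 + 3 := congrArg Fin.val hij
      omega)⟩ _ ?_
    rintro x y ⟨hx, hy, -⟩
    have hx' : ¬ x.1 < 3 := hx
    have hy' : ¬ y.1 < 3 := hy
    have hx6 := x.2
    have hy6 := y.2
    exact ⟨⟨⟨x.1 - 3, by omega⟩, Fin.ext (show x.1 - 3 + 3 = x.1 by omega)⟩,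
      ⟨⟨y.1 - 3, by omega⟩, Fin.ext (show y.1 - 3 + 3 = y.1 by omega)⟩⟩

/-- the vertices of the bow tie in the other graph -/
def vtx : Fin 5 → Fin 6 := ![0, 1, 2, 4, 5]

theorem cl_bow : Cl (Fin 5) bow := by
  have h1 : Cl (Fin 6) (ctr dumb 2 3) :=
    hCL.ctr (Fin 6) dumb 2 3 ((dumb_adj 2 3).2 (by decide)) cl_dumb
  have h2 : Cl (Fin 5) ((ctr dumb 2 3).comap vtx) :=
    hCL.emb (Fin 5) (Fin 6) vtx (by decide) _ h1
  refine hCL.mono (Fin 5) _ bow ?_ h2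
  intro i j hij
  rw [bow_adj] at hij
  rw [SimpleGraph.comap_adj, ctr_adj, dumb_adj, dumb_adj, dumb_adj]
  revert i j
  decide

/-- the pairs of different colours, also different from `c` -/
def PP (k : ℕ) (c : Fin k) : Type := {p : Fin k × Fin k // p.1 ≠ c ∧ p.2 ≠ c ∧ p.1 ≠ p.2}

instance (k : ℕ) (c : Fin k) : Finite (PP k c) := by
  unfold PP
  infer_instance

theorem card_PP (k : ℕ) (c : Fin k) : ((Nat.card (PP k c) : ℕ) : ℝ) = (k - 1) * (k - 2) := by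
  classical
  have hk : 1 ≤ k := by
    have := c.2
    omega
  have e : Nat.card (PP k c) = ((Finset.univ.erase c).offDiag).card := by
    rw [← Fintype.card_coe, ← Nat.card_eq_fintype_card]
    refine Nat.card_congr (Equiv.subtypeEquivRight ?_)
    intro p
    rw [Finset.mem_offDiag]
    simp
  have e2 : (Finset.univ.erase c).card = k - 1 := by
    rw [Finset.card_erase_of_mem (Finset.mem_univ c), Finset.card_univ, Fintype.card_fin]
  rw [e, Finset.offDiag_card, e2, Nat.cast_sub (Nat.le_mul_self _)]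
  push_cast [hk]
  ring

/-- the colourings of the bow tie -/
def bowEquiv (k : ℕ) : {g : Fin 5 → Fin k // Proper bow g} ≃ Σ c : Fin k, PP k c × PP k c where
  toFun g := ⟨g.1 2, ⟨(g.1 0, g.1 1), g.2 0 2 ((bow_adj _ _).2 (by decide)),
      g.2 1 2 ((bow_adj _ _).2 (by decide)), g.2 0 1 ((bow_adj _ _).2 (by decide))⟩,
    ⟨(g.1 3, g.1 4), g.2 3 2 ((bow_adj _ _).2 (by decide)),
      g.2 4 2 ((bow_adj _ _).2 (by decide)), g.2 3 4 ((bow_adj _ _).2 (by decide))⟩⟩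
  invFun s := ⟨![s.2.1.1.1, s.2.1.1.2, s.1, s.2.2.1.1, s.2.2.1.2], by
    obtain ⟨c, ⟨⟨a, b⟩, h1, h2, h3⟩, ⟨⟨d, e⟩, h4, h5, h6⟩⟩ := s
    simp only at h1 h2 h3 h4 h5 h6
    intro u v huv
    rw [bow_adj] at huv
    fin_cases u <;> fin_cases v <;> first
      | exact absurd huv (by decide)
      | exact h1
      | exact h1.symm
      | exact h2
      | exact h2.symm
      | exact h3
      | exact h3.symm
      | exact h4
      | exact h4.symm
      | exact h5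
      | exact h5.symm
      | exact h6
      | exact h6.symm⟩
  left_inv g := by
    apply Subtype.ext
    funext i
    fin_cases i <;> rfl
  right_inv s := rfl

theorem chr_bow : chr bow = X * (X - 1) ^ 2 * (X - 2) ^ 2 := by
  symm
  apply eq_chr
  intro k
  rw [card_colorings, Nat.card_congr (bowEquiv k), Nat.card_sigma]
  simp only [Nat.card_prod]
  push_cast
  simp only [card_PP]
  rw [Finset.sum_const, Finset.card_univ, Fintype.card_fin, nsmul_eq_mul]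
  simp only [eval_mul, eval_X, eval_sub, eval_one, eval_ofNat, eval_pow]
  ring

/-- the pairs of different colours -/
def P2 (k : ℕ) : Type := {p : Fin k × Fin k // p.1 ≠ p.2}

instance (k : ℕ) : Fintype (P2 k) := by
  unfold P2
  infer_instance

theorem card_P2 (k : ℕ) : ((Fintype.card (P2 k) : ℕ) : ℝ) = k * (k - 1) := by
  classical
  have e : Fintype.card (P2 k) = ((Finset.univ : Finset (Fin k)).offDiag).card := by
    rw [← Fintype.card_coe]
    refine Fintype.card_congr (Equiv.subtypeEquivRight ?_)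
    intro p
    rw [Finset.mem_offDiag]
    simp
  rw [e, Finset.offDiag_card, Finset.card_univ, Fintype.card_fin, Nat.cast_sub (Nat.le_mul_self _)]
  push_cast
  ring

/-- the other colours -/
def Oth (k : ℕ) (p : P2 k) : Type := {x : Fin k // x ≠ p.1.1 ∧ x ≠ p.1.2}

instance (k : ℕ) (p : P2 k) : Finite (Oth k p) := by
  unfold Oth
  infer_instance

theorem card_Oth (k : ℕ) (p : P2 k) : ((Nat.card (Oth k p) : ℕ) : ℝ) = k - 2 := by
  classical
  obtain ⟨⟨a, b⟩, hab⟩ := p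
  simp only at hab
  have hk : 2 ≤ k := by
    have h1 := a.2
    have h2 := b.2
    by_contra hcon
    apply hab
    apply Fin.ext
    omega
  have e : Nat.card (Oth k ⟨⟨a, b⟩, hab⟩) = ((Finset.univ.erase a).erase b).card := by
    rw [← Fintype.card_coe, ← Nat.card_eq_fintype_card]
    refine Nat.card_congr (Equiv.subtypeEquivRight ?_)
    intro x
    simp [and_comm]
  rw [e, Finset.card_erase_of_mem (by simp [hab.symm]),
    Finset.card_erase_of_mem (Finset.mem_univ a), Finset.card_univ, Fintype.card_fin]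
  have : k - 1 - 1 = k - 2 := by omega
  rw [this]
  push_cast [hk]
  ring

/-- the colourings of the book graph -/
def bookEquiv (m k : ℕ) : {g : Fin (m + 2) → Fin k // Proper (book (m + 2)) g} ≃
    Σ p : P2 k, (Fin m → Oth k p) where
  toFun g := ⟨⟨(g.1 0, g.1 1), g.2 0 1 ⟨by simp, Or.inl (by simp)⟩⟩,
    fun i => ⟨g.1 i.succ.succ, g.2 i.succ.succ 0 ⟨Fin.succ_ne_zero _, Or.inr (by simp)⟩,
      g.2 i.succ.succ 1 ⟨by
        intro h
        have := Fin.ext_iff.1 h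
        simp at this, Or.inr (by simp)⟩⟩⟩
  invFun s := ⟨Fin.cons s.1.1.1 (Fin.cons s.1.1.2 (fun i => (s.2 i).1)), by
    obtain ⟨⟨⟨a, b⟩, hab⟩, f⟩ := s
    simp only at hab f
    rintro u v ⟨huv, h⟩
    rcases Fin.eq_zero_or_eq_succ u with rfl | ⟨u, rfl⟩
    · rcases Fin.eq_zero_or_eq_succ v with rfl | ⟨v, rfl⟩
      · exact absurd rfl huv
      · rw [Fin.cons_zero, Fin.cons_succ]
        rcases Fin.eq_zero_or_eq_succ v with rfl | ⟨v, rfl⟩
        · rw [Fin.cons_zero]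
          exact hab
        · rw [Fin.cons_succ]
          exact (f v).2.1.symm
    · rw [Fin.cons_succ]
      rcases Fin.eq_zero_or_eq_succ v with rfl | ⟨v, rfl⟩
      · rw [Fin.cons_zero]
        rcases Fin.eq_zero_or_eq_succ u with rfl | ⟨u, rfl⟩
        · rw [Fin.cons_zero]
          exact hab.symm
        · rw [Fin.cons_succ]
          exact (f u).2.1
      · rw [Fin.cons_succ]
        rcases Fin.eq_zero_or_eq_succ u with rfl | ⟨u, rfl⟩
        · rcases Fin.eq_zero_or_eq_succ v with rfl | ⟨v, rfl⟩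
          · exact absurd rfl huv
          · rw [Fin.cons_zero, Fin.cons_succ]
            exact (f v).2.2.symm
        · rcases Fin.eq_zero_or_eq_succ v with rfl | ⟨v, rfl⟩
          · rw [Fin.cons_zero, Fin.cons_succ]
            exact (f u).2.2
          · simp at h⟩
  left_inv g := by
    apply Subtype.ext
    funext i
    rcases Fin.eq_zero_or_eq_succ i with rfl | ⟨i, rfl⟩
    · rfl
    · rcases Fin.eq_zero_or_eq_succ i with rfl | ⟨i, rfl⟩
      · rfl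
      · rfl
  right_inv s := rfl

theorem chr_book (h : ℕ) (hh : 2 ≤ h) : chr (book h) = X * (X - 1) * (X - 2) ^ (h - 2) := by
  obtain ⟨m, rfl⟩ := Nat.exists_eq_add_of_le' hh
  symm
  apply eq_chr
  intro k
  rw [card_colorings, Nat.card_congr (bookEquiv m k), Nat.card_sigma]
  simp only [Nat.card_fun, Nat.card_eq_fintype_card (α := Fin m), Fintype.card_fin]
  push_cast
  simp only [card_Oth]
  rw [Finset.sum_const, Finset.card_univ, nsmul_eq_mul, card_P2]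
  simp only [eval_mul, eval_X, eval_sub, eval_one, eval_ofNat, eval_pow]

theorem t_BOW : S_BOW := ⟨⟨bow, cl_bow, bow_two, chr_bow⟩, chr_book⟩

end Pool.Agent.D0H5.LW
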