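import Pool.Agent.D0H36.LW.Stm3

/-!
# Flatness of the distribution of additive functions: the core

Author: helper5.
-/

set_option autoImplicit false

namespace Pool.Agent.D0H5.LW

open Finset Polynomial Pool.Agent.H207R2.BL Pool.Agent.D0H36.BL Pool.Agent.D0H36.LW
open Pool.Agent.R814.BL (Cl)

theorem choose_dec {s r : ℕ} (h : s / 2 ≤ r) : s.choose (r + 1) ≤ s.choose r := by
  have h1 := Nat.choose_succ_right_eq s r
  have h2 : s - r ≤ r + 1 := by omega
  have h3 : s.choose (r + 1) * (r + 1) ≤ s.choose r * (r + 1) := by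
    rw [h1]
    exact Nat.mul_le_mul_left _ h2
  exact Nat.le_of_mul_le_mul_right h3 (by omega)

/-- summation by parts for a unimodal sequence -/
theorem parts (s : ℕ) (a : ℕ → ℝ) (F : ℝ) (h0 : ∀ j, 0 ≤ a j) (h1 : ∀ j, a j ≤ F) :
    |∑ j ∈ range (s + 1), (s.choose j : ℝ) * (a j - a (j + 1))| ≤ (s.choose (s / 2) : ℝ) * F := by
  have hF : 0 ≤ F := (h0 0).trans (h1 0)
  set U : ℕ → ℝ := fun m => ∑ j ∈ range (m + 1), (s.choose j : ℝ) * (a j - a (j + 1)) +
    (s.choose m : ℝ) * a (m + 1) with hU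
  have hstep : ∀ m, U (m + 1) = U m + ((s.choose (m + 1) : ℝ) - (s.choose m : ℝ)) * a (m + 1) := by
    intro m
    simp only [hU]
    rw [Finset.sum_range_succ _ (m + 1)]
    ring
  have hU0 : U 0 = (s.choose 0 : ℝ) * a 0 := by
    simp only [hU]
    rw [Finset.sum_range_succ, Finset.sum_range_zero]
    ring
  have P1 : ∀ m, m ≤ s / 2 → 0 ≤ U m ∧ U m ≤ (s.choose m : ℝ) * F := by
    intro m
    induction m with
    | zero =>
      intro _
      rw [hU0]
      exact ⟨mul_nonneg (by positivity) (h0 0), mul_le_mul_of_nonneg_left (h1 0) (by positivity)⟩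
    | succ m ih =>
      intro hm
      obtain ⟨i1, i2⟩ := ih (by omega)
      have hc : (s.choose m : ℝ) ≤ (s.choose (m + 1) : ℝ) := by
        exact_mod_cast Nat.choose_le_succ_of_lt_half_left (by omega)
      have e1 : 0 ≤ ((s.choose (m + 1) : ℝ) - (s.choose m : ℝ)) * a (m + 1) :=
        mul_nonneg (by linarith) (h0 _)
      have e2 : ((s.choose (m + 1) : ℝ) - (s.choose m : ℝ)) * a (m + 1) ≤
          ((s.choose (m + 1) : ℝ) - (s.choose m : ℝ)) * F :=
        mul_le_mul_of_nonneg_left (h1 _) (by linarith)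
      rw [hstep]
      constructor
      · linarith
      · linarith
  have P2 : ∀ k, -(((s.choose (s / 2) : ℝ) - (s.choose (s / 2 + k) : ℝ)) * F) ≤ U (s / 2 + k) ∧
      U (s / 2 + k) ≤ (s.choose (s / 2) : ℝ) * F := by
    intro k
    induction k with
    | zero =>
      obtain ⟨i1, i2⟩ := P1 (s / 2) le_rfl
      rw [Nat.add_zero]
      exact ⟨by linarith, i2⟩
    | succ k ih =>
      obtain ⟨i1, i2⟩ := ih
      have hc : (s.choose (s / 2 + k + 1) : ℝ) ≤ (s.choose (s / 2 + k) : ℝ) := by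
        exact_mod_cast choose_dec (by omega)
      have e1 : ((s.choose (s / 2 + k + 1) : ℝ) - (s.choose (s / 2 + k) : ℝ)) * a (s / 2 + k + 1) ≤ 0 :=
        mul_nonpos_of_nonpos_of_nonneg (by linarith) (h0 _)
      have e2 : ((s.choose (s / 2 + k + 1) : ℝ) - (s.choose (s / 2 + k) : ℝ)) * F ≤
          ((s.choose (s / 2 + k + 1) : ℝ) - (s.choose (s / 2 + k) : ℝ)) * a (s / 2 + k + 1) :=
        mul_le_mul_of_nonpos_left (h1 _) (by linarith)
      rw [← Nat.add_assoc, hstep]
      constructor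
      · linarith
      · linarith
  obtain ⟨k, hk⟩ : ∃ k, s / 2 + k = s := ⟨s - s / 2, by omega⟩
  obtain ⟨i1, i2⟩ := P2 k
  rw [hk, Nat.choose_self] at i1
  rw [hk] at i2
  have e3 : ∑ j ∈ range (s + 1), (s.choose j : ℝ) * (a j - a (j + 1)) = U s - a (s + 1) := by
    simp only [hU]
    rw [Nat.choose_self]
    push_cast
    ring
  rw [e3, abs_le]
  have e4 := h0 (s + 1)
  have e5 := h1 (s + 1)
  push_cast at i1
  constructor
  · linarith
  · linarith

open Classical in
theorem fam_flat (hCB : S_CBIN) {h n : ℕ} {A B : SimpleGraph (Fin h)} (hAB : A ≠ B)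
    (hT : ∀ K ∈ ({A, B} : Set (SimpleGraph (Fin h))), TwoEdge K)
    (hcl : ∀ K ∈ ({A, B} : Set (SimpleGraph (Fin h))), Cl _ K)
    (f : SimpleGraph (Fin n) → ℝ) (g : ℝ)
    (hF : ∀ (G : SimpleGraph (Fin n)) (W : Finset (Fin n)) (hW : W.card = h), Cl (Fin n) G →
      Site {A, B} G W → G.comap (W.orderEmbOfFin hW) = A → f (repl G W hW B) = f G + g)
    (T : Set ℝ) (S : Finset (Finset (Fin n))) :
    |∑ G ∈ Fam Cl A B S ∅, ((if f G ∈ T then (1 : ℝ) else 0) - (if f G + g ∈ T then (1 : ℝ) else 0))| ≤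
      Real.sqrt (2 / (S.card + 1)) * ((Fam Cl A B S ∅).card : ℝ) := by
  by_cases hS : ∀ W ∈ S, W.card = h
  · have h1 := fam_add hCL hAB hT hcl f g hF (fun y => if y ∈ T then (1 : ℝ) else 0) hS S
      (Finset.Subset.refl _)
    have h2 := fam_add hCL hAB hT hcl f g hF (fun y => if y + g ∈ T then (1 : ℝ) else 0) hS S
      (Finset.Subset.refl _)
    rw [Finset.sum_sub_distrib, h1, h2, fam_card hCL hAB hT hcl hS, ← Finset.sum_sub_distrib]
    set a : ℕ → ℝ := fun j => ∑ G ∈ Fam Cl A B S S, (if f G + j * g ∈ T then (1 : ℝ) else 0) with ha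
    have h3 : ∀ j : ℕ, ∑ G ∈ Fam Cl A B S S, (if f G + j * g + g ∈ T then (1 : ℝ) else 0) = a (j + 1) := by
      intro j
      simp only [ha]
      refine Finset.sum_congr rfl (fun G _ => ?_)
      have : f G + ((j + 1 : ℕ) : ℝ) * g = f G + j * g + g := by
        push_cast
        ring
      rw [this]
    have h4 : ∑ j ∈ range (S.card + 1), ((S.card.choose j : ℝ) *
        ∑ G ∈ Fam Cl A B S S, (if f G + j * g ∈ T then (1 : ℝ) else 0) -
        (S.card.choose j : ℝ) * ∑ G ∈ Fam Cl A B S S, (if f G + j * g + g ∈ T then (1 : ℝ) else 0)) =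
        ∑ j ∈ range (S.card + 1), (S.card.choose j : ℝ) * (a j - a (j + 1)) := by
      refine Finset.sum_congr rfl (fun j _ => ?_)
      rw [h3 j, mul_sub]
    rw [h4]
    refine (parts S.card a ((Fam Cl A B S S).card : ℝ) ?_ ?_).trans ?_
    · intro j
      exact Finset.sum_nonneg (fun G _ => by split_ifs <;> norm_num)
    · intro j
      simp only [ha]
      refine (Finset.sum_le_card_nsmul _ _ 1 (fun G _ => by split_ifs <;> norm_num)).trans ?_
      simp
    rw [← mul_assoc]
    refine mul_le_mul_of_nonneg_right ?_ (by positivity)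
    have h3 : ((S.card.choose (S.card / 2) : ℕ) : ℝ) ^ 2 * (S.card + 1) ≤ 2 * 4 ^ S.card := by
      exact_mod_cast hCB S.card
    have h4 : (0 : ℝ) < S.card + 1 := by positivity
    have h5 : ((S.card.choose (S.card / 2) : ℕ) : ℝ) ^ 2 ≤ (2 / (S.card + 1)) * (2 ^ S.card) ^ 2 := by
      have h6 : ((2 : ℝ) ^ S.card) ^ 2 = 4 ^ S.card := by
        rw [← pow_mul, mul_comm, pow_mul]
        norm_num
      rw [h6, div_mul_eq_mul_div, le_div_iff₀ h4]
      exact h3
    have h7 : (Real.sqrt (2 / (S.card + 1)) * 2 ^ S.card) ^ 2 =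
        (2 / (S.card + 1)) * ((2 : ℝ) ^ S.card) ^ 2 := by
      rw [mul_pow, Real.sq_sqrt (by positivity)]
    rw [← h7] at h5
    exact le_of_sq_le_sq h5 (by positivity)
  · have h4 : Fam Cl A B S ∅ = ∅ := by
      rw [Finset.eq_empty_iff_forall_notMem]
      intro G hG
      rw [mem_Fam] at hG
      apply hS
      intro W hW
      rw [← hG.2.1, mem_sitesOf] at hW
      exact hW.card
    rw [h4]
    simp

theorem t_SM1 (hCB : S_CBIN) : S_SM1 := by
  classical
  intro f hf h A B hA hB hA2 hB2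
  by_cases hAB' : A = B
  · subst hAB'
    refine ⟨0, fun n _ T => ?_⟩
    simp
  have hh : 0 < h := by
    rcases Nat.eq_zero_or_pos h with rfl | h0
    · exact absurd (Subsingleton.elim A B) hAB'
    · exact h0
  have hT : ∀ K ∈ ({A, B} : Set (SimpleGraph (Fin h))), TwoEdge K := by
    rintro K (rfl | rfl)
    · exact hA2
    · exact hB2
  have hcl : ∀ K ∈ ({A, B} : Set (SimpleGraph (Fin h))), Cl _ K := by
    rintro K (rfl | rfl)
    · exact hA
    · exact hB
  obtain ⟨c, hc, n₀, H⟩ := sum_weight hh hT hcl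
  set g : ℝ := (f (chr B)).toAdd - (f (chr A)).toAdd with hg
  refine ⟨2 / c + Real.sqrt (2 / c) + Real.sqrt n₀, fun n hn T => ?_⟩
  have hn0 : (0 : ℝ) < n := by exact_mod_cast hn
  have hsn : 0 < Real.sqrt n := Real.sqrt_pos.2 hn0
  rw [le_div_iff₀ hsn]
  by_cases hnn : n₀ ≤ n
  · have h1 : |∑ G : SimpleGraph (Fin n) with Cl (Fin n) G,
        ((if (f (chr G)).toAdd ∈ T then (1 : ℝ) else 0) -
          (if (f (chr G)).toAdd + g ∈ T then (1 : ℝ) else 0))| ≤
        ∑ G : SimpleGraph (Fin n) with Cl (Fin n) G,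
          Real.sqrt (2 / (((sitesOf {A, B} G).card : ℝ) + 1)) := by
      rw [sum_by_sites (A := A) (B := B), sum_by_sites (A := A) (B := B)
        (fun G => Real.sqrt (2 / (((sitesOf {A, B} G).card : ℝ) + 1)))]
      refine (Finset.abs_sum_le_sum_abs _ _).trans (Finset.sum_le_sum (fun S _ => ?_))
      refine (fam_flat hCB hAB' hT hcl (fun G => (f (chr G)).toAdd) g ?_ T S).trans
        (le_of_eq ?_)
      · intro G W hW hG hs hl
        show (f (chr (repl G W hW B))).toAdd = (f (chr G)).toAdd + g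
        rw [val_repl hf hG hW hs hl hA hB, toAdd_mul, toAdd_div]
        ring
      · rw [Finset.sum_congr rfl (g := fun _ => Real.sqrt (2 / ((S.card : ℝ) + 1))) (fun G hG => by
          rw [(mem_Fam.1 hG).2.1]), Finset.sum_const, nsmul_eq_mul, mul_comm]
    have h2 := H (fun m => Real.sqrt (2 / ((m : ℝ) + 1))) (by
      intro a b hab
      apply Real.sqrt_le_sqrt
      have : (a : ℝ) ≤ b := by exact_mod_cast hab
      exact div_le_div_of_nonneg_left (by norm_num) (by positivity) (by linarith))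
      (fun a => Real.sqrt_nonneg _) (by
      intro a
      rw [Real.sqrt_le_left (by norm_num)]
      rw [div_le_iff₀ (by positivity)]
      have : (0 : ℝ) ≤ a := by positivity
      nlinarith) n hnn
    have hN : (0 : ℝ) < num Cl n := by exact_mod_cast hNP n
    have h3 : |share Cl n (fun G => (f (chr G)).toAdd ∈ T) -
        share Cl n (fun G => (f (chr G)).toAdd + g ∈ T)| ≤
        2 * Real.exp (-(c * n)) + Real.sqrt (2 / ((⌈c * n⌉₊ : ℝ) + 1)) := by
      unfold share
      rw [← sub_div, abs_div, abs_of_pos hN, div_le_iff₀ hN]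
      refine le_trans (le_of_eq ?_) (h1.trans h2)
      rw [cnt_eq, cnt_eq, Finset.sum_sub_distrib, ← Finset.sum_filter, ← Finset.sum_filter,
        Finset.sum_const, Finset.sum_const, nsmul_eq_mul, nsmul_eq_mul, mul_one, mul_one,
        Finset.filter_filter, Finset.filter_filter]
    refine (mul_le_mul_of_nonneg_right h3 hsn.le).trans ?_
    have h4 : Real.sqrt (2 / ((⌈c * n⌉₊ : ℝ) + 1)) * Real.sqrt n ≤ Real.sqrt (2 / c) := by
      rw [← Real.sqrt_mul (by positivity)]
      apply Real.sqrt_le_sqrt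
      rw [div_mul_eq_mul_div, div_le_div_iff₀ (by positivity) hc]
      have h5 : c * n ≤ (⌈c * n⌉₊ : ℝ) := Nat.le_ceil _
      nlinarith
    have h5 : Real.exp (-(c * n)) * Real.sqrt n ≤ 1 / c := by
      have h6 : c * n ≤ Real.exp (c * n) := by
        have := Real.add_one_le_exp (c * n)
        linarith
      have h7 : Real.sqrt n ≤ n := by
        rw [Real.sqrt_le_left hn0.le]
        have : (1 : ℝ) ≤ n := by exact_mod_cast hn
        nlinarith
      rw [Real.exp_neg, inv_mul_eq_div, div_le_div_iff₀ (Real.exp_pos _) hc]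
      nlinarith
    have h6 : 0 ≤ Real.sqrt n₀ := Real.sqrt_nonneg _
    calc (2 * Real.exp (-(c * n)) + Real.sqrt (2 / ((⌈c * n⌉₊ : ℝ) + 1))) * Real.sqrt n
        = 2 * (Real.exp (-(c * n)) * Real.sqrt n) +
          Real.sqrt (2 / ((⌈c * n⌉₊ : ℝ) + 1)) * Real.sqrt n := by ring
      _ ≤ 2 * (1 / c) + Real.sqrt (2 / c) := by linarith
      _ ≤ 2 / c + Real.sqrt (2 / c) + Real.sqrt n₀ := by
          have : 2 * (1 / c) = 2 / c := by ring
          linarith
  · have h1 : Real.sqrt n ≤ Real.sqrt n₀ := by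
      apply Real.sqrt_le_sqrt
      have : n ≤ n₀ := by omega
      exact_mod_cast this
    have h2 : |share Cl n (fun G => (f (chr G)).toAdd ∈ T) -
        share Cl n (fun G => (f (chr G)).toAdd + g ∈ T)| ≤ 1 := by
      have a1 := share_le_one (𝒞 := Cl) (n := n) (fun G => (f (chr G)).toAdd ∈ T)
      have a2 := share_le_one (𝒞 := Cl) (n := n) (fun G => (f (chr G)).toAdd + g ∈ T)
      have a3 := share_nonneg (𝒞 := Cl) (n := n) (fun G => (f (chr G)).toAdd ∈ T)
      have a4 := share_nonneg (𝒞 := Cl) (n := n) (fun G => (f (chr G)).toAdd + g ∈ T)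
      rw [abs_le]
      constructor <;> linarith
    have h3 : 0 ≤ Real.sqrt (2 / c) := Real.sqrt_nonneg _
    have h4 : 0 ≤ 2 / c := by positivity
    nlinarith

end Pool.Agent.D0H5.LW
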