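import Pool.Agent.D0H36.LW.Stm3

/-!
# Flatness of the distribution of additive functions: the conclusion

Author: helper5.
-/

set_option autoImplicit false

namespace Pool.Agent.D0H5.LW

open Polynomial Pool.Agent.H207R2.BL Pool.Agent.D0H36.BL Pool.Agent.D0H36.LW
open Pool.Agent.R814.BL (Cl)

theorem flat_zero (f : ℝ[X] → Multiplicative ℝ) : Flat f 0 0 := by
  intro n _ T
  simp

theorem flat_add {f : ℝ[X] → Multiplicative ℝ} {g g' C C' : ℝ} (h : Flat f g C) (h' : Flat f g' C') :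
    Flat f (g + g') (C + C') := by
  intro n hn T
  have h1 := h n hn {y | y + g' ∈ T}
  have h2 := h' n hn T
  simp only [Set.mem_ofPred_eq] at h1
  have e1 : (fun G : SimpleGraph (Fin n) => (f (chr G)).toAdd + (g + g') ∈ T) =
      fun G : SimpleGraph (Fin n) => (f (chr G)).toAdd + g + g' ∈ T := by
    funext G
    rw [add_assoc]
  rw [e1, add_div]
  have h3 := abs_add_le
    (share Cl n (fun G => (f (chr G)).toAdd ∈ T) - share Cl n (fun G => (f (chr G)).toAdd + g' ∈ T))
    (share Cl n (fun G => (f (chr G)).toAdd + g' ∈ T) -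
      share Cl n (fun G => (f (chr G)).toAdd + g + g' ∈ T))
  rw [sub_add_sub_cancel] at h3
  linarith

theorem flat_neg {f : ℝ[X] → Multiplicative ℝ} {g C : ℝ} (h : Flat f g C) : Flat f (-g) C := by
  intro n hn T
  have h1 := h n hn {y | y + -g ∈ T}
  simp only [Set.mem_ofPred_eq, add_neg_cancel_right] at h1
  rw [abs_sub_comm]
  exact h1

/-- the group of the shifts -/
def shifts (f : ℝ[X] → Multiplicative ℝ) : AddSubgroup ℝ where
  carrier := {g | ∃ C : ℝ, Flat f g C}
  zero_mem' := ⟨0, flat_zero f⟩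
  add_mem' := fun ⟨C, h⟩ ⟨C', h'⟩ => ⟨C + C', flat_add h h'⟩
  neg_mem' := fun ⟨C, h⟩ => ⟨C, flat_neg h⟩

theorem t_SM2 (hTR : S_TRIV) (hS : S_SM1) : S_SM2 := by
  intro f hf hX hX1 V _ G hG
  let φ : ℝ[X] → Multiplicative (ℝ ⧸ shifts f) := fun p =>
    Multiplicative.ofAdd (QuotientAddGroup.mk (f p).toAdd)
  have hφ : IsMul φ := by
    obtain ⟨S, h1, h2, h3, h4, h5⟩ := hf
    refine ⟨S, h1, h2, h3, h4, fun p hp q hq => ?_⟩
    show Multiplicative.ofAdd (QuotientAddGroup.mk (f (p * q)).toAdd) = _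
    rw [h5 p hp q hq, toAdd_mul, QuotientAddGroup.mk_add, ofAdd_add]
  have hφT : Triv φ := by
    intro h A B hA hB hA2 hB2
    obtain ⟨C, hC⟩ := hS f hf h A B hA hB hA2 hB2
    show Multiplicative.ofAdd (QuotientAddGroup.mk (f (chr A)).toAdd) =
      Multiplicative.ofAdd (QuotientAddGroup.mk (f (chr B)).toAdd)
    congr 1
    rw [QuotientAddGroup.eq]
    refine ⟨C, ?_⟩
    rw [neg_add_eq_sub]
    exact hC
  obtain ⟨c, d, -, -, -, h⟩ := hTR _ φ hφ hφT V G hG
  have e1 : φ X = 1 := by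
    show Multiplicative.ofAdd (QuotientAddGroup.mk (f X).toAdd) = 1
    rw [hX, toAdd_one, QuotientAddGroup.mk_zero, ofAdd_zero]
  have e2 : φ (X - 1) = 1 := by
    show Multiplicative.ofAdd (QuotientAddGroup.mk (f (X - 1)).toAdd) = 1
    rw [hX1, toAdd_one, QuotientAddGroup.mk_zero, ofAdd_zero]
  rw [e1, e2, one_pow, one_pow, one_mul] at h
  have h2 : (QuotientAddGroup.mk (f (chr G)).toAdd : ℝ ⧸ shifts f) = 0 := by
    have h3 := congrArg Multiplicative.toAdd h
    exact h3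
  rw [QuotientAddGroup.eq_zero_iff] at h2
  exact h2

end Pool.Agent.D0H5.LW
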